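import Pool.Agent.N566.VV.Defs2

/-!
# Project VV, part 15: the value of the closure of the tangle of a tree (helper11)
-/

set_option autoImplicit false

namespace Pool.Agent.N11.VV

open Pool.Agent.H835R2.Knot Pool.Agent.N566.VV
open Pool.Agent.H550R3.Jones (br brf Adm)
open Finset

lemma opD_append {ι : Type} [Fintype ι] [DecidableEq ι] (T : Dat ι) (w₁ w₂ : Word) (A : Front) :
    ∃ B : Front, ∀ f : F ι, opD T (w₁ ++ w₂) A f = opD T w₁ A (opD T w₂ B f) := by
  induction w₁ generalizing A with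
  | nil => exact ⟨A, fun f => rfl⟩
  | cons p w ih =>
    obtain ⟨B, hB⟩ := ih (p.act A)
    refine ⟨B, fun f => ?_⟩
    change opP T p A.dir (opD T (w ++ w₂) (p.act A) f) = opP T p A.dir (opD T w (p.act A) _)
    rw [hB]

lemma opD_nil' {ι : Type} [Fintype ι] [DecidableEq ι] (T : Dat ι) (A : Front) (f : F ι) :
    opD T [] A f = f := rfl

lemma opD_cons' {ι : Type} [Fintype ι] [DecidableEq ι] (T : Dat ι) (p : Piece) (w : Word)
    (A : Front) (f : F ι) : opD T (p :: w) A f = opP T p A.dir (opD T w (p.act A) f) := rfl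

lemma opP_birth' {ι : Type} [Fintype ι] [DecidableEq ι] (T : Dat ι) (i : ℕ) (b : Bool)
    (d : ℕ → Bool) (f : F ι) : opP T (.birth i b) d f = Bl T i f := rfl

lemma opP_death' {ι : Type} [Fintype ι] [DecidableEq ι] (T : Dat ι) (i : ℕ)
    (d : ℕ → Bool) (f : F ι) : opP T (.death i) d f = Dl T i f := rfl

lemma plain_birth {q : Piece} {i : ℕ} (h : plain q = .birth i true) : ∃ b, q = .birth i b := by
  cases q with
  | birth j b =>
    simp only [plain, Piece.birth.injEq, and_true] at h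
    exact ⟨b, by rw [h]⟩
  | death j => simp [plain] at h
  | pos j => simp [plain] at h
  | neg j => simp [plain] at h

lemma plain_death {q : Piece} {i : ℕ} (h : plain q = .death i) : q = .death i := by
  cases q with
  | birth j b => simp [plain] at h
  | death j => simpa [plain] using h
  | pos j => simp [plain] at h
  | neg j => simp [plain] at h

lemma brf_ne (N : ℕ) (v : ℂ) (h : Adm N v) (j : ℕ) (hj : j < N) : brf v j ≠ 0 := by
  unfold brf
  rw [prod_ne_zero_iff]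
  intro k hk
  have hk' := mem_range.1 hk
  have := h.2 (k + 1) (by omega) (by omega)
  exact_mod_cast this

lemma cd_eq (N : ℕ) (hN : Odd N) (v : ℂ) (h : Adm N v) (x : Fin N) :
    (datJ N v).c x * (datJ N v).d x = v ^ ((N : ℤ) - 1 - 2 * (x : ℕ)) := by
  have hx := x.2
  change (kap N v (Fin.rev x : Fin N))⁻¹ * kap N v x = _
  have hr : ((Fin.rev x : Fin N) : ℕ) = N - 1 - x := by
    rw [Fin.val_rev]; omega
  have hrr : N - 1 - (N - 1 - (x : ℕ)) = x := by omega
  unfold kap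
  rw [hr, hrr]
  have b1 := brf_ne N v h x hx
  have b2 := brf_ne N v h (N - 1 - x) (by omega)
  have b3 := brf_ne N v h (N - 1) (by omega)
  have hv := h.1
  have hcast : ((N - 1 - (x : ℕ) : ℕ) : ℤ) = (N : ℤ) - 1 - x := by omega
  rw [hcast]
  have hsgn : ((-1 : ℂ)) ^ (N - 1 - (x : ℕ)) = (-1) ^ (x : ℕ) := by
    obtain ⟨m, hm⟩ := hN
    have e1 : N - 1 = 2 * m := by omega
    have e2 : (-1 : ℂ) ^ (N - 1 - (x : ℕ)) * (-1) ^ (x : ℕ) = 1 := by
      rw [← pow_add, show N - 1 - (x : ℕ) + x = 2 * m by omega, pow_mul]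
      norm_num
    have e3 : (-1 : ℂ) ^ (x : ℕ) * (-1) ^ (x : ℕ) = 1 := by
      rw [← mul_pow]; norm_num
    have e4 : (-1 : ℂ) ^ (x : ℕ) ≠ 0 := pow_ne_zero _ (by norm_num)
    exact mul_right_cancel₀ e4 (e2.trans e3.symm)
  rw [hsgn]
  have hs : (-1 : ℂ) ^ (x : ℕ) ≠ 0 := pow_ne_zero _ (by norm_num)
  set s : ℂ := (-1) ^ (x : ℕ)
  set B : ℂ := brf v x * brf v (N - 1 - x) / brf v (N - 1) with hB
  have hB0 : B ≠ 0 := div_ne_zero (mul_ne_zero b1 b2) b3
  have hB' : brf v (N - 1 - x) * brf v x / brf v (N - 1) = B := by rw [hB, mul_comm]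
  rw [hB']
  have e5 : ((N : ℤ) - 1 - x) * ((N : ℤ) - 2 - ((N : ℤ) - 1 - x)) + ((N : ℤ) - 1 - 2 * (x : ℕ)) =
      (x : ℤ) * ((N : ℤ) - 2 - x) := by ring
  rw [← e5, zpow_add₀ hv]
  have hz : v ^ (((N : ℤ) - 1 - x) * ((N : ℤ) - 2 - ((N : ℤ) - 1 - x))) ≠ 0 := zpow_ne_zero _ hv
  field_simp

theorem s_tree (h : S_TW) : S_TREE := by
  intro N hN t D hD
  unfold treeW at hD
  obtain ⟨D1, D3, rfl, hD1, hD3⟩ := List.map_eq_append_iff.1 hD
  obtain ⟨D0, E, rfl, hD0, hE⟩ := List.map_eq_append_iff.1 hD1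
  obtain ⟨b0, b1, rfl⟩ : ∃ b0 b1, D0 = [.birth 0 b0, .birth 1 b1] := by
    rcases D0 with _ | ⟨a, _ | ⟨b, _ | ⟨c, l⟩⟩⟩
    · simp at hD0
    · simp at hD0
    · simp only [List.map_cons, List.map_nil, List.cons.injEq, and_true] at hD0
      obtain ⟨b0, rfl⟩ := plain_birth hD0.1
      obtain ⟨b1, rfl⟩ := plain_birth hD0.2
      exact ⟨b0, b1, rfl⟩
    · simp at hD0
  obtain rfl : D3 = [.death 1, .death 0] := by
    rcases D3 with _ | ⟨a, _ | ⟨b, _ | ⟨c, l⟩⟩⟩
    · simp at hD3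
    · simp at hD3
    · simp only [List.map_cons, List.map_nil, List.cons.injEq, and_true] at hD3
      rw [plain_death hD3.1, plain_death hD3.2]
    · simp at hD3
  set A2 : Front := (Piece.birth 1 b1).act ((Piece.birth 0 b0).act Front.empty) with hA2
  obtain ⟨e, he⟩ := h N hN t 0 E A2 hE
  refine ⟨e, fun v hv σ => ?_⟩
  obtain ⟨B, hB⟩ := opD_append (datJ N v) E [.death 1, .death 0] A2
  have h1 : val (datJ N v) ([.birth 0 b0, .birth 1 b1] ++ E ++ [.death 1, .death 0]) σ =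
      Bl (datJ N v) 0 (Bl (datJ N v) 1 (v ^ e • Xl (tangle N v t) 0
        (Dl (datJ N v) 1 (Dl (datJ N v) 0 (fun _ => 1))))) σ := by
    have hDeq : ([.birth 0 b0, .birth 1 b1] ++ E ++ [.death 1, .death 0] : Word) =
      .birth 0 b0 :: .birth 1 b1 :: (E ++ [.death 1, .death 0]) := rfl
    rw [hDeq, Pool.Agent.N566.VV.val, opD_cons', opP_birth', opD_cons', opP_birth', ← hA2, hB, he v hv, opD_cons',
      opP_death', opD_cons', opP_death', opD_nil']
  rw [h1]
  have hg : ∀ (x y : Fin N) (p : Fin N × Fin N),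
      Dl (datJ N v) 1 (Dl (datJ N v) 0 (fun _ => 1)) (updS 0 p.1 p.2
        (insS 1 y (Fin.rev y) (insS 0 x (Fin.rev x) σ))) =
      if p = (x, y) then (datJ N v).d y * (datJ N v).d x else 0 := by
    intro x y p
    obtain ⟨p1, p2⟩ := p
    unfold Dl
    have e2 : updS 0 p1 p2 (insS 1 y (Fin.rev y) (insS 0 x (Fin.rev x) σ)) (1 + 1) = Fin.rev y := by
      simp [updS, insS]
    have e1 : updS 0 p1 p2 (insS 1 y (Fin.rev y) (insS 0 x (Fin.rev x) σ)) 1 = p2 := by
      simp [updS]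
    have e3 : delS 1 (updS 0 p1 p2 (insS 1 y (Fin.rev y) (insS 0 x (Fin.rev x) σ))) (0 + 1) =
        Fin.rev x := by
      simp [delS, updS, insS]
    have e4 : delS 1 (updS 0 p1 p2 (insS 1 y (Fin.rev y) (insS 0 x (Fin.rev x) σ))) 0 = p1 := by
      simp [delS, updS]
    rw [e2, e1, e3, e4]
    have r1 : (datJ N v).rev p2 = Fin.rev p2 := rfl
    have r2 : (datJ N v).rev p1 = Fin.rev p1 := rfl
    rw [r1, r2]
    by_cases hy : p2 = y
    · by_cases hx : p1 = x
      · subst hy hx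
        simp
      · have hx' : ¬ (Fin.rev x = Fin.rev p1) := fun h => hx (Fin.rev_injective h).symm
        simp [hy, hx, hx']
    · have hy' : ¬ (Fin.rev y = Fin.rev p2) := fun h => hy (Fin.rev_injective h).symm
      simp [hy, hy']
  have h2 : ∀ x y : Fin N, (v ^ e • Xl (tangle N v t) 0 (Dl (datJ N v) 1 (Dl (datJ N v) 0
      (fun _ => 1)))) (insS 1 y (Fin.rev y) (insS 0 x (Fin.rev x) σ)) =
      v ^ e * (tangle N v t (x, y) (x, y) * ((datJ N v).d y * (datJ N v).d x)) := by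
    intro x y
    change v ^ e * Xl (tangle N v t) 0 _ _ = _
    congr 1
    unfold Xl
    have e0 : insS 1 y (Fin.rev y) (insS 0 x (Fin.rev x) σ) 0 = x := by simp [insS]
    have e1 : insS 1 y (Fin.rev y) (insS 0 x (Fin.rev x) σ) (0 + 1) = y := by simp [insS]
    rw [e0, e1, sum_eq_single (x, y)]
    · rw [hg, if_pos rfl]
    · intro p _ hp
      rw [hg, if_neg hp, mul_zero]
    · intro hh
      exact absurd (mem_univ _) hh
  have h3 : Bl (datJ N v) 0 (Bl (datJ N v) 1 (v ^ e • Xl (tangle N v t) 0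
        (Dl (datJ N v) 1 (Dl (datJ N v) 0 (fun _ => 1))))) σ =
      ∑ x : Fin N, (datJ N v).c x * ∑ y : Fin N, (datJ N v).c y *
        (v ^ e * (tangle N v t (x, y) (x, y) * ((datJ N v).d y * (datJ N v).d x))) := by
    unfold Bl
    apply sum_congr rfl
    intro x _
    congr 1
    apply sum_congr rfl
    intro y _
    rw [← h2 x y]
    rfl
  rw [h3]
  unfold treeM
  simp only [mul_sum]
  apply sum_congr rfl
  intro x _
  apply sum_congr rfl
  intro y _
  rw [← cd_eq N hN v hv x, ← cd_eq N hN v hv y]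
  ring

end Pool.Agent.N11.VV
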